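import Pool.Agent.KS6_73.LO.NewPrime

/-!
# Arithmetic conditions
-/

set_option autoImplicit false

namespace KS6_73.LO

open Polynomial Q167.LightsOut

lemma val_pow_sub (p x n : ℕ) (hp : p.Prime) (hp2 : Odd p) (hx1 : 1 < x) (hx : p ∣ x - 1)
    (hn : n ≠ 0) :
    padicValNat p (x ^ n - 1) = padicValNat p (x - 1) + padicValNat p n := by
  have : Fact p.Prime := ⟨hp⟩
  have hpx : ¬ p ∣ x := by
    intro h
    have h1 := (Nat.dvd_sub h hx)
    have : x - (x - 1) = 1 := by omega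
    rw [this] at h1
    exact hp.one_lt.ne' (Nat.dvd_one.1 h1)
  have := padicValNat.pow_sub_pow hp2 (y := 1) hx1 hx hpx hn
  simpa using this

lemma not_dvd_of_val {p n : ℕ} (hp : p.Prime) (hn : n ≠ 0) (h : padicValNat p n = 0) :
    ¬ p ∣ n := by
  have : Fact p.Prime := ⟨hp⟩
  intro hd
  have := one_le_padicValNat_of_dvd hn hd
  omega

lemma persist (b u p e : ℕ) (hp : p.Prime) (hp2 : Odd p) (hpb : p ∣ b) (hb : b ≠ 0)
    (he : 2 ^ e = 1 + b * u) (hu : ¬ p ∣ u) :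
    ∃ u', 2 ^ (e * p) = 1 + b * p * u' ∧ ¬ p ∣ u' := by
  have : Fact p.Prime := ⟨hp⟩
  have hu0 : u ≠ 0 := by rintro rfl; exact hu (dvd_zero p)
  have hbu : 0 < b * u := Nat.pos_of_ne_zero (mul_ne_zero hb hu0)
  have h1 : 1 < 2 ^ e := by omega
  have h2 : 2 ^ e - 1 = b * u := by omega
  have h3 := val_pow_sub p (2 ^ e) p hp hp2 h1 (by rw [h2]; exact hpb.mul_right u) hp.ne_zero
  rw [h2, padicValNat.mul hb hu0, padicValNat.eq_zero_of_not_dvd hu, padicValNat_self] at h3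
  have h4 : 2 ^ e - 1 ∣ (2 ^ e) ^ p - 1 := by
    simpa using Nat.sub_dvd_pow_sub_pow (2 ^ e) 1 p
  rw [h2] at h4
  obtain ⟨y, hy⟩ := (dvd_mul_right b u).trans h4
  have h5 : 1 < (2 ^ e) ^ p := Nat.one_lt_pow hp.ne_zero h1
  have hy0 : y ≠ 0 := by rintro rfl; rw [mul_zero] at hy; omega
  rw [hy, padicValNat.mul hb hy0] at h3
  have h6 : padicValNat p y = 1 := by omega
  have h7 : p ∣ y := dvd_of_one_le_padicValNat (by omega)
  obtain ⟨u', rfl⟩ := h7
  have hu'0 : u' ≠ 0 := by rintro rfl; simp at hy0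
  rw [padicValNat.mul hp.ne_zero hu'0, padicValNat_self] at h6
  refine ⟨u', ?_, not_dvd_of_val hp hu'0 (by omega)⟩
  rw [pow_mul, mul_assoc, ← hy]
  omega

/-- stability under all powers of the prime -/
theorem stable_pow (a p : ℕ) (hp : p.Prime) (hp2 : Odd p) (k : ℕ) :
    ∀ b u e : ℕ, p ∣ b → b ≠ 0 → 2 ^ e = 1 + b * u → ¬ p ∣ u →
      nullity (2 ^ a * b * p ^ k - 1) = nullity (2 ^ a * b - 1) := by
  induction k with
  | zero => intro b u e _ _ _ _; simp
  | succ k ih =>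
    intro b u e hpb hb he hu
    obtain ⟨u', h1, h2⟩ := persist b u p e hp hp2 hpb hb he hu
    have h3 := ih (b * p) u' (e * p) (dvd_mul_left p b) (mul_ne_zero hb hp.ne_zero) h1 h2
    have h4 := nullity_step a b u p e hp hp2 hpb hb he hu
    rw [show 2 ^ a * b * p ^ (k + 1) = 2 ^ a * (b * p) * p ^ k by ring, h3,
      show 2 ^ a * (b * p) = 2 ^ a * b * p by ring, h4]

/-- from divisibilities to the form used above -/
lemma form_of_dvd {b p e : ℕ} (h1 : b ∣ 2 ^ e - 1) (h2 : ¬ b * p ∣ 2 ^ e - 1) :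
    ∃ u, 2 ^ e = 1 + b * u ∧ ¬ p ∣ u := by
  obtain ⟨u, hu⟩ := h1
  refine ⟨u, ?_, ?_⟩
  · have : 0 < 2 ^ e := by positivity
    omega
  · intro h
    apply h2
    rw [hu]
    exact Nat.mul_dvd_mul_left b h

/-- the nullity is finally constant along the powers of an odd prime -/
theorem eventually_const (N p : ℕ) (hN : N ≠ 0) (hp : p.Prime) (hp2 : Odd p) :
    ∃ k₀, ∀ k, k₀ ≤ k → nullity (N * p ^ k - 1) = nullity (N * p ^ k₀ - 1) := by
  have : Fact p.Prime := ⟨hp⟩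
  obtain ⟨a, b, hb, rfl⟩ := Nat.exists_eq_two_pow_mul_odd hN
  have hb0 : b ≠ 0 := hb.pos.ne'
  have hodd : Odd (b * p) := hb.mul hp2
  have hcop : Nat.Coprime 2 (b * p) := Nat.coprime_two_left.2 hodd
  have h1 := Nat.ModEq.pow_totient hcop
  set e := (b * p).totient with he
  have he0 : e ≠ 0 := (Nat.totient_pos.2 hodd.pos).ne'
  have h2 : b * p ∣ 2 ^ e - 1 := (Nat.modEq_iff_dvd' Nat.one_le_two_pow).1 h1.symm
  obtain ⟨t, ht⟩ := h2
  have h3 : 1 < 2 ^ e := Nat.one_lt_two_pow he0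
  have ht0 : t ≠ 0 := by rintro rfl; rw [mul_zero] at ht; omega
  obtain ⟨v, u, hu, htu⟩ := Nat.exists_eq_pow_mul_and_not_dvd ht0 p hp.ne_one
  refine ⟨v + 1, fun k hk => ?_⟩
  obtain ⟨j, rfl⟩ : ∃ j, k = v + 1 + j := ⟨k - (v + 1), by omega⟩
  have h5 : 2 ^ e = 1 + (b * p ^ (v + 1)) * u := by
    have : b * p * t = b * p ^ (v + 1) * u := by rw [htu]; ring
    omega
  have h6 := stable_pow a p hp hp2 j (b * p ^ (v + 1)) u e
    ((dvd_pow_self p (by omega)).mul_left b) (mul_ne_zero hb0 (pow_ne_zero _ hp.ne_zero)) h5 hu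
  rw [show 2 ^ a * b * p ^ (v + 1 + j) = 2 ^ a * (b * p ^ (v + 1)) * p ^ j by ring, h6,
    show 2 ^ a * (b * p ^ (v + 1)) = 2 ^ a * b * p ^ (v + 1) by ring]

/-- the criterion by Euler's function -/
lemma criterion (b p : ℕ) (hb : Odd b) (hp : p.Prime) (hp2 : Odd p) (hpb : p ∣ b)
    (hw : ¬ p ^ 2 ∣ 2 ^ (p - 1) - 1) (hq : ∀ q : ℕ, q.Prime → q ∣ b → ¬ p ∣ q - 1) :
    ∃ u, 2 ^ b.totient = 1 + b * u ∧ ¬ p ∣ u := by
  have : Fact p.Prime := ⟨hp⟩
  have hb0 : b ≠ 0 := hb.pos.ne'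
  have hcop : Nat.Coprime 2 b := Nat.coprime_two_left.2 hb
  have h1 := Nat.ModEq.pow_totient hcop
  have h2 : b ∣ 2 ^ b.totient - 1 := (Nat.modEq_iff_dvd' Nat.one_le_two_pow).1 h1.symm
  have hφ0 : b.totient ≠ 0 := (Nat.totient_pos.2 hb.pos).ne'
  have h3 : 1 < 2 ^ b.totient := Nat.one_lt_two_pow hφ0
  obtain ⟨u, hu⟩ := h2
  have hu0 : u ≠ 0 := by rintro rfl; rw [mul_zero] at hu; omega
  refine ⟨u, by omega, not_dvd_of_val hp hu0 ?_⟩
  -- the valuation of `2 ^ (p - 1) - 1` is one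
  have hcop' : Nat.Coprime 2 p := Nat.coprime_two_left.2 hp2
  have hf := Nat.ModEq.pow_totient hcop'
  rw [Nat.totient_prime hp] at hf
  have hf2 : p ∣ 2 ^ (p - 1) - 1 := (Nat.modEq_iff_dvd' Nat.one_le_two_pow).1 hf.symm
  have hp1 : p - 1 ≠ 0 := by have := hp.two_le; omega
  have hx1 : 1 < 2 ^ (p - 1) := Nat.one_lt_two_pow hp1
  have hv1 : padicValNat p (2 ^ (p - 1) - 1) = 1 := by
    apply le_antisymm
    · by_contra hcon
      apply hw
      rw [padicValNat_dvd_iff_le (by omega)]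
      omega
    · exact one_le_padicValNat_of_dvd (by omega) hf2
  -- Euler's function
  obtain ⟨n, hn⟩ : p - 1 ∣ b.totient := by
    rw [← Nat.totient_prime hp]; exact Nat.totient_dvd_of_dvd hpb
  have hn0 : n ≠ 0 := by rintro rfl; rw [mul_zero] at hn; exact hφ0 hn
  have hvp1 : padicValNat p (p - 1) = 0 := by
    apply padicValNat.eq_zero_of_not_dvd
    intro h
    have := Nat.le_of_dvd (by omega) h
    have := hp.two_le
    omega
  have hvφ : padicValNat p b.totient = padicValNat p n := by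
    rw [hn, padicValNat.mul hp1 hn0, hvp1, zero_add]
  have h4 := val_pow_sub p (2 ^ (p - 1)) n hp hp2 hx1 hf2 hn0
  rw [← pow_mul, ← hn, hv1, hu, padicValNat.mul hb0 hu0, ← hvφ] at h4
  -- the valuation of `φ b`
  have h5 := Nat.totient_mul_prod_primeFactors b
  have hT : ¬ p ∣ ∏ q ∈ b.primeFactors, (q - 1) := by
    rw [Prime.dvd_finsetProd_iff hp.prime]
    rintro ⟨q, hq1, hq2⟩
    exact hq q (Nat.prime_of_mem_primeFactors hq1) (Nat.dvd_of_mem_primeFactors hq1) hq2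
  have hmem : p ∈ b.primeFactors := Nat.mem_primeFactors.2 ⟨hp, hpb, hb0⟩
  have hR : ¬ p ∣ ∏ q ∈ b.primeFactors.erase p, q := by
    rw [Prime.dvd_finsetProd_iff hp.prime]
    rintro ⟨q, hq1, hq2⟩
    rw [Finset.mem_erase] at hq1
    have := (Nat.prime_dvd_prime_iff_eq hp (Nat.prime_of_mem_primeFactors hq1.2)).1 hq2
    exact hq1.1 this.symm
  rw [← Finset.mul_prod_erase _ _ hmem] at h5
  have hR0 : ∏ q ∈ b.primeFactors.erase p, q ≠ 0 := fun h => hR (by rw [h]; exact dvd_zero p)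
  have hT0 : ∏ q ∈ b.primeFactors, (q - 1) ≠ 0 := fun h => hT (by rw [h]; exact dvd_zero p)
  have h6 := congrArg (padicValNat p) h5
  rw [padicValNat.mul hφ0 (mul_ne_zero hp.ne_zero hR0), padicValNat.mul hp.ne_zero hR0,
    padicValNat.mul hb0 hT0, padicValNat.eq_zero_of_not_dvd hR,
    padicValNat.eq_zero_of_not_dvd hT, padicValNat_self] at h6
  omega

/-- stability under multiplication by prime factors -/
theorem multi (a m : ℕ) : ∀ b : ℕ, Odd b → m ≠ 0 →
    (∀ p : ℕ, p.Prime → p ∣ m → Odd p ∧ p ∣ b ∧ ¬ p ^ 2 ∣ 2 ^ (p - 1) - 1 ∧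
      ∀ q : ℕ, q.Prime → q ∣ b → ¬ p ∣ q - 1) →
    nullity (2 ^ a * b * m - 1) = nullity (2 ^ a * b - 1) := by
  induction m using Nat.strong_induction_on with
  | _ m ih =>
    intro b hb hm h
    by_cases h1 : m = 1
    · rw [h1, mul_one]
    · have hp := Nat.minFac_prime h1
      set p := m.minFac with hpdef
      obtain ⟨m', hm'⟩ := Nat.minFac_dvd m
      rw [← hpdef] at hm'
      have hm'0 : m' ≠ 0 := by rintro rfl; exact hm (by rw [hm', mul_zero])
      have hlt : m' < m := by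
        rw [hm']
        have := hp.two_le
        nlinarith [Nat.pos_of_ne_zero hm'0]
      obtain ⟨hodd, hpb, hw, hq⟩ := h p hp (Nat.minFac_dvd m)
      have h2 := ih m' hlt (b * p) (hb.mul hodd) hm'0 (by
        intro q hqp hqm
        obtain ⟨g1, g2, g3, g4⟩ := h q hqp (by rw [hm']; exact hqm.mul_left p)
        refine ⟨g1, g2.mul_right p, g3, ?_⟩
        intro r hr hrb
        apply g4 r hr
        rcases (hr.dvd_mul).1 hrb with h3 | h3
        · exact h3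
        · exact h3.trans hpb)
      obtain ⟨u, hu1, hu2⟩ := criterion b p hb hp hodd hpb hw hq
      have h3 := nullity_step a b u p _ hp hodd hpb hb.pos.ne' hu1 hu2
      rw [hm', show 2 ^ a * b * (p * m') = 2 ^ a * (b * p) * m' by ring, h2,
        show 2 ^ a * (b * p) = 2 ^ a * b * p by ring, h3]

end KS6_73.LO
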