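import Pool.Agent.KS6_73.LO.Arith

/-!
# New primes and the family of nullity two
-/

set_option autoImplicit false

namespace KS6_73.LO

open Polynomial Q167.LightsOut

/-- A new prime `l ≡ 3 (mod 4)` for which the powers of `2 ^ e` are the squares modulo `l`. -/
theorem new_prime (a b l e : ℕ) (hb : b ≠ 0) (hl : l.Prime) (h13 : 13 < l) (h4 : l % 4 = 3)
    (hlb : ¬ l ∣ b) (hbe : b ∣ 2 ^ e - 1) (ho : orderOf ((2 : ZMod l) ^ e) = (l - 1) / 2) :
    nullity (2 ^ a * b * l - 1) = nullity (2 ^ a * b - 1) := by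
  have : Fact l.Prime := ⟨hl⟩
  have hodd : Odd l := hl.odd_of_ne_two (by omega)
  apply nullity_of_no_new a b l hodd hb
  intro z w hz hw hzb hzw
  have hcop : Nat.Coprime b l := ((Nat.Prime.coprime_iff_not_dvd hl).2 hlb).symm
  obtain ⟨h, hh⟩ : ∃ h, l = 2 * h + 1 := ⟨l / 2, by omega⟩
  have hh2 : (l - 1) / 2 = h := by omega
  have hhodd : Odd h := Nat.odd_iff.2 (by omega)
  rw [hh2] at ho
  have hprim : IsPrimitiveRoot ((2 : ZMod l) ^ e) h := by
    rw [← ho]; exact IsPrimitiveRoot.orderOf _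
  have : NeZero h := ⟨by omega⟩
  refine no_new_prime b l e hl h13 hcop hb hbe ?_ hz hw hzb hzw
  intro t ht ht0
  have ht' : (t : ZMod l) ≠ 0 := by
    intro h0
    rw [ZMod.natCast_eq_zero_iff] at h0
    exact ht0 (Nat.eq_zero_of_dvd_of_lt h0 ht)
  have hf : (t : ZMod l) ^ (l - 1) = 1 := ZMod.pow_card_sub_one_eq_one ht'
  have hf2 : ((t : ZMod l) ^ h - 1) * ((t : ZMod l) ^ h + 1) = 0 := by
    have : l - 1 = h + h := by omega
    rw [this, pow_add] at hf
    linear_combination hf
  rcases mul_eq_zero.1 hf2 with h1 | h1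
  · have h2 : (t : ZMod l) ^ h = 1 := sub_eq_zero.1 h1
    obtain ⟨i, _, hi⟩ := hprim.eq_pow_of_pow_eq_one h2
    refine ⟨i, Or.inl ?_⟩
    rw [← ZMod.intCast_zmod_eq_zero_iff_dvd]
    push_cast
    rw [hi, sub_self]
  · have h2 : (-(t : ZMod l)) ^ h = 1 := by
      rw [hhodd.neg_pow]; linear_combination -h1
    obtain ⟨i, _, hi⟩ := hprim.eq_pow_of_pow_eq_one h2
    refine ⟨i, Or.inr ?_⟩
    rw [← ZMod.intCast_zmod_eq_zero_iff_dvd]
    push_cast
    rw [hi, neg_add_cancel]

/-- the order of a power of two modulo a safe prime -/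
lemma order_safe (l h e : ℕ) (hl : l.Prime) (hh : h.Prime) (hlh : l = 2 * h + 1) (h13 : 13 < l)
    (he : ¬ h ∣ e) : orderOf ((2 : ZMod l) ^ (2 * e)) = h := by
  have : Fact l.Prime := ⟨hl⟩
  have : Fact h.Prime := ⟨hh⟩
  have h20 : (2 : ZMod l) ≠ 0 := by
    intro h0
    have h1 : ((2 : ℕ) : ZMod l) = 0 := by exact_mod_cast h0
    rw [ZMod.natCast_eq_zero_iff] at h1
    have := Nat.le_of_dvd (by norm_num) h1
    omega
  have hf : (2 : ZMod l) ^ (2 * h) = 1 := by
    have := ZMod.pow_card_sub_one_eq_one h20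
    rwa [show l - 1 = 2 * h by omega] at this
  apply orderOf_eq_prime
  · rw [← pow_mul, show 2 * e * h = 2 * h * e by ring, pow_mul, hf, one_pow]
  · intro h1
    have h3 := pow_gcd_eq_one.2 ⟨h1, hf⟩
    rw [Nat.gcd_mul_left, Nat.Coprime.gcd_eq_one ((Nat.Prime.coprime_iff_not_dvd hh).2 he).symm]
      at h3
    have h4 : ((3 : ℕ) : ZMod l) = 0 := by
      push_cast
      linear_combination h3
    rw [ZMod.natCast_eq_zero_iff] at h4
    have := Nat.le_of_dvd (by norm_num) h4
    omega

/-- safe primes larger than `13` -/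
def Safe (l : ℕ) : Prop := l.Prime ∧ ((l - 1) / 2).Prime ∧ 13 < l

lemma Safe.eq {l : ℕ} (h : Safe l) : l = 2 * ((l - 1) / 2) + 1 := by
  obtain ⟨h1, h2, h3⟩ := h
  have := h1.odd_of_ne_two (by omega)
  obtain ⟨k, hk⟩ := this
  omega

lemma sub_dvd (a k : ℕ) : 2 ^ a - 1 ∣ 2 ^ (a * k) - 1 := by
  rw [pow_mul]
  simpa using Nat.sub_dvd_pow_sub_pow (2 ^ a) 1 k

/-- squarefree products of safe primes -/
lemma squarefree_family (T : Finset ℕ) (hT : ∀ l ∈ T, Safe l) :
    nullity (6 * ∏ l ∈ T, l - 1) = 2 ∧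
      3 * ∏ l ∈ T, l ∣ 2 ^ (2 * ∏ l ∈ T, (l - 1)) - 1 ∧ 3 * ∏ l ∈ T, l ≠ 0 := by
  classical
  induction T using Finset.induction_on with
  | empty =>
    refine ⟨?_, by norm_num, by norm_num⟩
    have := nullity_eq_two (n := 5) (k := 1) le_rfl (by norm_num)
    simpa using this
  | insert l T hlT ih =>
    obtain ⟨h1, h2, h3⟩ := ih fun x hx => hT x (Finset.mem_insert_of_mem hx)
    have hs := hT l (Finset.mem_insert_self l T)
    have hle := hs.eq
    obtain ⟨hl, hh, h13⟩ := hs
    set h := (l - 1) / 2 with hhdef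
    rw [Finset.prod_insert hlT, Finset.prod_insert hlT]
    set P := ∏ l ∈ T, l with hP
    set E := ∏ l ∈ T, (l - 1) with hE
    have hlb : ¬ l ∣ 3 * P := by
      rw [hl.dvd_mul]
      rintro (h4 | h4)
      · have := Nat.le_of_dvd (by norm_num) h4
        omega
      · rw [hP, Prime.dvd_finsetProd_iff hl.prime] at h4
        obtain ⟨q, hq1, hq2⟩ := h4
        have hq := (hT q (Finset.mem_insert_of_mem hq1)).1
        have := (Nat.prime_dvd_prime_iff_eq hl hq).1 hq2
        exact hlT (this ▸ hq1)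
    have hhE : ¬ h ∣ 2 * E := by
      rw [hh.dvd_mul]
      rintro (h4 | h4)
      · have := Nat.le_of_dvd (by norm_num) h4
        omega
      · rw [hE, Prime.dvd_finsetProd_iff hh.prime] at h4
        obtain ⟨q, hq1, hq2⟩ := h4
        have hqs := hT q (Finset.mem_insert_of_mem hq1)
        have hqe := hqs.eq
        obtain ⟨hq, hqh, hq13⟩ := hqs
        rw [show q - 1 = 2 * ((q - 1) / 2) by omega, hh.dvd_mul] at hq2
        rcases hq2 with h5 | h5
        · have := Nat.le_of_dvd (by norm_num) h5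
          omega
        · have h6 := (Nat.prime_dvd_prime_iff_eq hh hqh).1 h5
          apply hlT
          have : l = q := by omega
          rwa [this]
    have hbe : 3 * P ∣ 2 ^ (2 * (2 * E)) - 1 := by
      refine h2.trans ?_
      rw [mul_comm 2 (2 * E)]
      exact sub_dvd _ _
    have h4 : l % 4 = 3 := by
      have : h % 2 = 1 := Nat.odd_iff.1 (hh.odd_of_ne_two (by omega))
      omega
    have h5 := new_prime 1 (3 * P) l (2 * (2 * E)) h3 hl h13 h4 hlb hbe (by
      rw [order_safe l h (2 * E) hl hh hle h13 hhE])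
    refine ⟨?_, ?_, ?_⟩
    · rw [show 6 * (l * P) = 2 ^ 1 * (3 * P) * l by ring, h5,
        show 2 ^ 1 * (3 * P) = 6 * P by ring, h1]
    · rw [show 3 * (l * P) = (3 * P) * l by ring]
      apply Nat.Coprime.mul_dvd_of_dvd_of_dvd
      · exact ((Nat.Prime.coprime_iff_not_dvd hl).2 hlb).symm
      · refine h2.trans ?_
        rw [show 2 * ((l - 1) * E) = 2 * E * (l - 1) by ring]
        exact sub_dvd _ _
      · have hcop : Nat.Coprime 2 l := Nat.coprime_two_left.2 (hl.odd_of_ne_two (by omega))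
        have hf := Nat.ModEq.pow_totient hcop
        rw [Nat.totient_prime hl] at hf
        have hf2 : l ∣ 2 ^ (l - 1) - 1 := (Nat.modEq_iff_dvd' Nat.one_le_two_pow).1 hf.symm
        refine hf2.trans ?_
        rw [show 2 * ((l - 1) * E) = (l - 1) * (2 * E) by ring]
        exact sub_dvd _ _
    · have := hl.pos
      intro h0
      apply h3
      have : 3 * P * l = 0 := by rw [← h0]; ring
      rcases Nat.mul_eq_zero.1 this with h6 | h6
      · exact h6
      · omega

/-- the family of nullity two -/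
theorem family (m : ℕ) (hm : m ≠ 0)
    (h1 : ∀ p : ℕ, p.Prime → p ∣ m → p = 3 ∨ (Safe p ∧ ¬ p ^ 2 ∣ 2 ^ (p - 1) - 1))
    (h2 : ∀ p q : ℕ, p.Prime → q.Prime → p ∣ m → q ∣ m → q ≠ 2 * p + 1) :
    nullity (6 * m - 1) = 2 := by
  classical
  set T := m.primeFactors.erase 3 with hT
  have hTs : ∀ l ∈ T, Safe l := by
    intro l hl
    rw [hT, Finset.mem_erase, Nat.mem_primeFactors] at hl
    rcases h1 l hl.2.1 hl.2.2.1 with h | h
    · exact absurd h hl.1
    · exact h.1
  have hTm : ∀ l ∈ T, l.Prime ∧ l ∣ m := by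
    intro l hl
    rw [hT, Finset.mem_erase, Nat.mem_primeFactors] at hl
    exact ⟨hl.2.1, hl.2.2.1⟩
  obtain ⟨g1, _, g3⟩ := squarefree_family T hTs
  have hdvd : ∏ l ∈ T, l ∣ m := by
    refine Dvd.dvd.trans ?_ (Nat.prod_primeFactors_dvd m)
    exact Finset.prod_dvd_prod_of_subset _ _ _ (Finset.erase_subset _ _)
  obtain ⟨m1, hm1⟩ := hdvd
  set P := ∏ l ∈ T, l with hP
  have hm10 : m1 ≠ 0 := by rintro rfl; exact hm (by rw [hm1, mul_zero])
  have hP0 : P ≠ 0 := by rintro h; exact hm (by rw [hm1, h, zero_mul])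
  have hprimeT : ∀ q : ℕ, q.Prime → q ∣ 3 * P → q = 3 ∨ q ∈ T := by
    intro q hq hqd
    rcases hq.dvd_mul.1 hqd with h | h
    · left; exact (Nat.prime_dvd_prime_iff_eq hq Nat.prime_three).1 h
    · right
      rw [hP, Prime.dvd_finsetProd_iff hq.prime] at h
      obtain ⟨r, hr1, hr2⟩ := h
      have := (Nat.prime_dvd_prime_iff_eq hq (hTm r hr1).1).1 hr2
      rwa [this]
  have hoddT : ∀ l ∈ T, Odd l := fun l hl =>
    (hTs l hl).1.odd_of_ne_two (by have := (hTs l hl).2.2; omega)
  have hPodd : Odd P := by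
    rw [hP]
    exact Finset.prod_induction _ Odd (fun _ _ => Odd.mul) odd_one hoddT
  have h5 := multi 1 m1 (3 * P) (Odd.mul (by decide) hPodd) hm10 (by
    intro p hp hpm1
    have hpm : p ∣ m := by rw [hm1]; exact hpm1.mul_left P
    have hcase : p = 3 ∨ (p ∈ T ∧ Safe p ∧ ¬ p ^ 2 ∣ 2 ^ (p - 1) - 1) := by
      rcases h1 p hp hpm with h | h
      · left; exact h
      · right
        refine ⟨?_, h⟩
        rw [hT, Finset.mem_erase, Nat.mem_primeFactors]
        exact ⟨by have := h.1.2.2; omega, hp, hpm, hm⟩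
    have hpodd : Odd p := by
      rcases hcase with h | h
      · rw [h]; decide
      · exact hoddT p h.1
    refine ⟨hpodd, ?_, ?_, ?_⟩
    · rcases hcase with h | h
      · rw [h]; exact dvd_mul_right 3 P
      · exact (Finset.dvd_prod_of_mem (fun l => l) h.1).mul_left 3
    · rcases hcase with h | h
      · rw [h]; norm_num
      · exact h.2.2
    · intro q hq hqd hpq
      rcases hprimeT q hq hqd with h | h
      · rw [h] at hpq
        have h6 : p ≤ 2 := Nat.le_of_dvd (by norm_num) hpq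
        have h7 : p = 2 := le_antisymm h6 hp.two_le
        rw [h7] at hpodd
        exact absurd hpodd (by decide)
      · have hqs := hTs q h
        have hqe := hqs.eq
        rw [show q - 1 = 2 * ((q - 1) / 2) by omega, hp.dvd_mul] at hpq
        rcases hpq with h8 | h8
        · have h6 : p ≤ 2 := Nat.le_of_dvd (by norm_num) h8
          have h7 : p = 2 := le_antisymm h6 hp.two_le
          rw [h7] at hpodd
          exact absurd hpodd (by decide)
        · have h9 := (Nat.prime_dvd_prime_iff_eq hp hqs.2.1).1 h8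
          exact h2 p q hp hq hpm (hTm q h).2 (by omega))
  rw [show 6 * m = 2 ^ 1 * (3 * P) * m1 by rw [hm1]; ring, h5,
    show 2 ^ 1 * (3 * P) = 6 * P by ring, g1]

/-- Admissible sets of primes: safe primes `l > 13` with `l ^ 2 ∤ 2 ^ (l - 1) - 1`, none of which
is `2 p + 1` for another one. -/
def Admissible (S : Finset ℕ) : Prop :=
  (∀ l ∈ S, Safe l ∧ ¬ l ^ 2 ∣ 2 ^ (l - 1) - 1) ∧ ∀ p ∈ S, ∀ q ∈ S, q ≠ 2 * p + 1

lemma family_divisor (S : Finset ℕ) (hS : Admissible S) (m : ℕ) (hm : m ≠ 0)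
    (h : ∀ p : ℕ, p.Prime → p ∣ m → p ∈ insert 3 S) : nullity (6 * m - 1) = 2 := by
  apply family m hm
  · intro p hp hpm
    have := h p hp hpm
    rw [Finset.mem_insert] at this
    rcases this with h1 | h1
    · left; exact h1
    · right; exact hS.1 p h1
  · intro p q hp hq hpm hqm
    have h1 := h p hp hpm
    have h2 := h q hq hqm
    rw [Finset.mem_insert] at h1 h2
    rcases h1 with rfl | h1 <;> rcases h2 with rfl | h2
    · norm_num
    · have := (hS.1 q h2).1.2.2
      omega
    · have := (hS.1 p h1).1.2.2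
      omega
    · exact hS.2 p h1 q h2

open Classical in
lemma count_pow (S : Finset ℕ) (hS : Admissible S) (M : ℕ) :
    (M + 1) ^ (S.card + 1) ≤
      ((Finset.range (6 * (∏ l ∈ insert 3 S, l) ^ M)).filter fun n => nullity n = 2).card := by
  set T := insert 3 S with hT
  set B := ∏ l ∈ T, l with hB
  have h3S : 3 ∉ S := by
    intro h
    have := (hS.1 3 h).1.2.2
    omega
  have hTp : ∀ p ∈ T, p.Prime := by
    intro p hp
    rw [hT, Finset.mem_insert] at hp
    rcases hp with rfl | hp
    · exact Nat.prime_three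
    · exact (hS.1 p hp).1.1
  have hB0 : B ≠ 0 := Finset.prod_ne_zero_iff.2 fun p hp => (hTp p hp).ne_zero
  have hpf : B.primeFactors = T := Nat.primeFactors_prod hTp
  have hcard : (M + 1) ^ (S.card + 1) ≤ (B ^ M).divisors.card := by
    rcases Nat.eq_zero_or_pos M with rfl | hM
    · simp
    rw [Nat.card_divisors (pow_ne_zero _ hB0), Nat.primeFactors_pow _ hM.ne', hpf]
    have h1 : S.card + 1 = T.card := (Finset.card_insert_of_notMem h3S).symm
    rw [h1, ← Finset.prod_const]
    apply Finset.prod_le_prod'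
    intro p hp
    rw [Nat.factorization_pow]
    have h2 : 1 ≤ B.factorization p := by
      apply (hTp p hp).factorization_pos_of_dvd hB0
      exact Finset.dvd_prod_of_mem (fun l => l) hp
    simp only [Finsupp.smul_apply, smul_eq_mul]
    nlinarith
  refine hcard.trans ?_
  apply Finset.card_le_card_of_injOn (fun m => 6 * m - 1)
  · intro m hm
    have hm' := Nat.mem_divisors.1 hm
    have hm0 : m ≠ 0 := by rintro rfl; exact hm'.2 (zero_dvd_iff.1 hm'.1)
    have hle := Nat.le_of_dvd (Nat.pos_of_ne_zero hm'.2) hm'.1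
    simp only [Finset.coe_filter, Finset.mem_range, Set.mem_ofPred_eq]
    refine ⟨by omega, ?_⟩
    apply family_divisor S hS m hm0
    intro p hp hpm
    have h1 : p ∣ B := hp.dvd_of_dvd_pow (hpm.trans hm'.1)
    rw [← hT, ← hpf]
    exact Nat.mem_primeFactors.2 ⟨hp, h1, hB0⟩
  · intro x hx y hy hxy
    have hx0 : x ≠ 0 := by
      rintro rfl
      have := Nat.mem_divisors.1 hx
      exact this.2 (zero_dvd_iff.1 this.1)
    have hy0 : y ≠ 0 := by
      rintro rfl
      have := Nat.mem_divisors.1 hy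
      exact this.2 (zero_dvd_iff.1 this.1)
    simp only at hxy
    omega

open Classical in
theorem count_log (S : Finset ℕ) (hS : Admissible S) : ∃ c : ℝ, 0 < c ∧ ∀ x : ℕ, 6 ≤ x →
    c * Real.log x ^ (S.card + 1) ≤
      ((Finset.range x).filter fun n => nullity n = 2).card := by
  set B := ∏ l ∈ insert 3 S, l with hB
  have hB6 : 3 ≤ B := by
    apply Nat.le_of_dvd
    · apply Finset.prod_pos
      intro p hp
      rw [Finset.mem_insert] at hp
      rcases hp with rfl | hp
      · norm_num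
      · exact (hS.1 p hp).1.1.pos
    · exact Finset.dvd_prod_of_mem (fun l => l) (Finset.mem_insert_self 3 S)
  have hBr : (3 : ℝ) ≤ B := by exact_mod_cast hB6
  have hlB : 0 < Real.log B := Real.log_pos (by linarith)
  refine ⟨(1 / (3 * Real.log B)) ^ (S.card + 1), by positivity, ?_⟩
  intro x hx
  set M := Nat.log B (x / 6) with hM
  have hx6 : x / 6 ≠ 0 := by omega
  have h1 : B ^ M ≤ x / 6 := Nat.pow_log_le_self B hx6
  have h2 : x / 6 < B ^ (M + 1) := Nat.lt_pow_succ_log_self (by omega) _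
  have h3 := count_pow S hS M
  have h4 : ((Finset.range (6 * B ^ M)).filter fun n => nullity n = 2).card ≤
      ((Finset.range x).filter fun n => nullity n = 2).card := by
    apply Finset.card_le_card
    apply Finset.filter_subset_filter
    apply Finset.range_subset_range.2
    have := Nat.div_mul_le_self x 6
    omega
  have h5 : Real.log x ≤ 3 * Real.log B * (M + 1) := by
    have h6 : x < 6 * B ^ (M + 1) := by omega
    have h7 : (x : ℝ) ≤ (B : ℝ) ^ (3 * (M + 1)) := by
      have h8 : 6 * B ^ (M + 1) ≤ B ^ (3 * (M + 1)) := by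
        have h9 : 6 ≤ B ^ (2 * (M + 1)) := by
          calc 6 ≤ 3 ^ 2 := by norm_num
            _ ≤ B ^ 2 := Nat.pow_le_pow_left hB6 2
            _ ≤ B ^ (2 * (M + 1)) := Nat.pow_le_pow_right (by omega) (by omega)
        calc 6 * B ^ (M + 1) ≤ B ^ (2 * (M + 1)) * B ^ (M + 1) := Nat.mul_le_mul_right _ h9
          _ = B ^ (3 * (M + 1)) := by ring
      exact_mod_cast (h6.trans_le h8).le
    have h10 := Real.log_le_log (by positivity) h7
    rw [Real.log_pow] at h10
    push_cast at h10
    linarith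
  have h11 : (1 / (3 * Real.log B)) ^ (S.card + 1) * Real.log x ^ (S.card + 1) ≤
      ((M : ℝ) + 1) ^ (S.card + 1) := by
    rw [← mul_pow]
    apply pow_le_pow_left₀
    · have : 0 ≤ Real.log x := Real.log_natCast_nonneg x
      positivity
    · rw [one_div, ← div_eq_inv_mul, div_le_iff₀ (by positivity)]
      linarith
  refine h11.trans ?_
  exact_mod_cast h3.trans h4

lemma admissible_nine : Admissible {23, 59, 83, 107, 179, 227, 263, 347, 383} := by
  constructor
  · intro l hl
    simp only [Finset.mem_insert, Finset.mem_singleton] at hl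
    rcases hl with rfl | rfl | rfl | rfl | rfl | rfl | rfl | rfl | rfl
    all_goals
      refine ⟨⟨by norm_num, by norm_num, by norm_num⟩, by decide +kernel⟩
  · decide

end KS6_73.LO
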