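import Pool.Agent.KS6_73.LO.Stable

/-!
# Stability of the nullity under multiplication by certain new primes
-/

set_option autoImplicit false

namespace KS6_73.LO

open Polynomial Q167.LightsOut

section

variable {l : ℕ} {η α β : KK} {c : ℤ}

/-- the indicator of the multiples of `l` -/
noncomputable def ind (l : ℕ) (m : ℤ) : KK := if (l : ℤ) ∣ m then 1 else 0

lemma zpow_eq_one' (hη : orderOf η = l) (hη0 : η ≠ 0) (m : ℤ) : η ^ m = 1 ↔ (l : ℤ) ∣ m := by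
  have h1 : orderOf (Units.mk0 η hη0) = l := by
    rw [← hη, ← orderOf_units]; rfl
  rw [← h1, orderOf_dvd_iff_zpow_eq_one, Units.ext_iff]
  simp

lemma sum_zpow (hl : l.Prime) (hodd : Odd l) (hη : orderOf η = l) (m : ℤ) :
    ∑ t ∈ Finset.range l, (η ^ t) ^ m = ind l m := by
  have h2 : (2 : KK) = 0 := two_zero'
  have hη0 : η ≠ 0 := by
    rintro rfl
    have h := pow_orderOf_eq_one (0 : KK)
    rw [hη, zero_pow hl.ne_zero] at h
    exact zero_ne_one h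
  have e1 : ∀ t : ℕ, (η ^ t) ^ m = (η ^ m) ^ t := by
    intro t
    rw [← zpow_natCast, ← zpow_natCast, ← zpow_mul, ← zpow_mul, mul_comm]
  simp only [e1]
  unfold ind
  split_ifs with h
  · rw [← zpow_eq_one' hη hη0] at h
    rw [h]
    obtain ⟨k, rfl⟩ := hodd
    simp only [one_pow, Finset.sum_const, Finset.card_range, nsmul_eq_mul, mul_one]
    push_cast
    linear_combination (k : KK) * h2
  · apply sum_pow_eq_zero
    · rw [← zpow_natCast, ← zpow_mul, mul_comm, zpow_mul, zpow_natCast, ← hη,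
        pow_orderOf_eq_one, one_zpow]
    · intro h'
      exact h ((zpow_eq_one' hη hη0 m).1 h')

/-- The function whose zeros are the pairs of roots. -/
noncomputable def ff (α β : KK) (c : ℤ) (x : KK) : KK :=
  α * x + α⁻¹ * x⁻¹ + (β * x ^ c + β⁻¹ * x ^ (-c)) + 1

lemma ff_mul (hα : α ≠ 0) (hβ : β ≠ 0) {x : KK} (hx : x ≠ 0) (k : ℤ) :
    ff α β c x * ff α β c x⁻¹ * x ^ (-k) =
      (α + α⁻¹ + (β + β⁻¹) + 1) ^ 2 * x ^ (-k) + x ^ (2 - k) + x ^ (-2 - k)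
      + x ^ (2 * c - k) + x ^ (-2 * c - k)
      + (α + α⁻¹) * (x ^ (1 - k) + x ^ (-1 - k)) + (β + β⁻¹) * (x ^ (c - k) + x ^ (-c - k))
      + (α * β + α⁻¹ * β⁻¹) * (x ^ (1 - c - k) + x ^ (c - 1 - k))
      + (α * β⁻¹ + α⁻¹ * β) * (x ^ (1 + c - k) + x ^ (-1 - c - k)) := by
  have h2 : (2 : KK) = 0 := two_zero'
  have hX : x * x⁻¹ = 1 := mul_inv_cancel₀ hx
  have hU : x ^ c * x ^ (-c) = 1 := by rw [← zpow_add₀ hx]; simp
  have hA : α * α⁻¹ = 1 := mul_inv_cancel₀ hα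
  have hB : β * β⁻¹ = 1 := mul_inv_cancel₀ hβ
  have t1 : x ^ (2 - k) = x * x * x ^ (-k) := by
    rw [show (2 - k : ℤ) = 1 + 1 + -k by ring, zpow_add₀ hx, zpow_add₀ hx, zpow_one]
  have t2 : x ^ (-2 - k) = x⁻¹ * x⁻¹ * x ^ (-k) := by
    rw [show (-2 - k : ℤ) = -1 + -1 + -k by ring, zpow_add₀ hx, zpow_add₀ hx, zpow_neg_one]
  have t3 : x ^ (2 * c - k) = x ^ c * x ^ c * x ^ (-k) := by
    rw [show (2 * c - k : ℤ) = c + c + -k by ring, zpow_add₀ hx, zpow_add₀ hx]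
  have t4 : x ^ (-2 * c - k) = x ^ (-c) * x ^ (-c) * x ^ (-k) := by
    rw [show (-2 * c - k : ℤ) = -c + -c + -k by ring, zpow_add₀ hx, zpow_add₀ hx]
  have t5 : x ^ (1 - k) = x * x ^ (-k) := by
    rw [show (1 - k : ℤ) = 1 + -k by ring, zpow_add₀ hx, zpow_one]
  have t6 : x ^ (-1 - k) = x⁻¹ * x ^ (-k) := by
    rw [show (-1 - k : ℤ) = -1 + -k by ring, zpow_add₀ hx, zpow_neg_one]
  have t7 : x ^ (c - k) = x ^ c * x ^ (-k) := by
    rw [show (c - k : ℤ) = c + -k by ring, zpow_add₀ hx]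
  have t8 : x ^ (-c - k) = x ^ (-c) * x ^ (-k) := by
    rw [show (-c - k : ℤ) = -c + -k by ring, zpow_add₀ hx]
  have t9 : x ^ (1 - c - k) = x * x ^ (-c) * x ^ (-k) := by
    rw [show (1 - c - k : ℤ) = 1 + -c + -k by ring, zpow_add₀ hx, zpow_add₀ hx, zpow_one]
  have t10 : x ^ (c - 1 - k) = x ^ c * x⁻¹ * x ^ (-k) := by
    rw [show (c - 1 - k : ℤ) = c + -1 + -k by ring, zpow_add₀ hx, zpow_add₀ hx, zpow_neg_one]
  have t11 : x ^ (1 + c - k) = x * x ^ c * x ^ (-k) := by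
    rw [show (1 + c - k : ℤ) = 1 + c + -k by ring, zpow_add₀ hx, zpow_add₀ hx, zpow_one]
  have t12 : x ^ (-1 - c - k) = x⁻¹ * x ^ (-c) * x ^ (-k) := by
    rw [show (-1 - c - k : ℤ) = -1 + -c + -k by ring, zpow_add₀ hx, zpow_add₀ hx, zpow_neg_one]
  have t13 : (x⁻¹) ^ c = x ^ (-c) := by rw [inv_zpow, zpow_neg]
  have t14 : (x⁻¹) ^ (-c) = x ^ c := by rw [inv_zpow, zpow_neg, inv_inv]
  rw [t1, t2, t3, t4, t5, t6, t7, t8, t9, t10, t11, t12]
  unfold ff
  rw [t13, t14, inv_inv]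
  generalize x⁻¹ = y at *
  generalize x ^ c = u at *
  generalize x ^ (-c) = v at *
  generalize x ^ (-k) = W at *
  generalize α⁻¹ = a at *
  generalize β⁻¹ = b at *
  linear_combination (W * (α ^ 2 + a ^ 2)) * hX + (W * (β ^ 2 + b ^ 2)) * hU
    + (W * (x ^ 2 + y ^ 2)) * hA + (W * (u ^ 2 + v ^ 2)) * hB
    - W * (α * a + α * β + α * b + α + a * β + a * b + a + β * b + β + b) * h2

lemma key (hl : l.Prime) (hodd : Odd l) (hη : orderOf η = l) (hα : α ≠ 0) (hβ : β ≠ 0)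
    (hz : ∀ t : ℕ, t < l → t ≠ 0 → ff α β c (η ^ t) * ff α β c (η ^ t)⁻¹ = 0) (k : ℤ) :
    (α + α⁻¹ + (β + β⁻¹) + 1) ^ 2 =
      (α + α⁻¹ + (β + β⁻¹) + 1) ^ 2 * ind l (-k) + ind l (2 - k) + ind l (-2 - k)
      + ind l (2 * c - k) + ind l (-2 * c - k)
      + (α + α⁻¹) * (ind l (1 - k) + ind l (-1 - k))
      + (β + β⁻¹) * (ind l (c - k) + ind l (-c - k))
      + (α * β + α⁻¹ * β⁻¹) * (ind l (1 - c - k) + ind l (c - 1 - k))
      + (α * β⁻¹ + α⁻¹ * β) * (ind l (1 + c - k) + ind l (-1 - c - k)) := by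
  have hη0 : η ≠ 0 := by
    rintro rfl
    have h := pow_orderOf_eq_one (0 : KK)
    rw [hη, zero_pow hl.ne_zero] at h
    exact zero_ne_one h
  have h1 : ∑ t ∈ Finset.range l, ff α β c (η ^ t) * ff α β c (η ^ t)⁻¹ * (η ^ t) ^ (-k)
      = (α + α⁻¹ + (β + β⁻¹) + 1) ^ 2 := by
    rw [Finset.sum_eq_single 0]
    · simp [ff]; ring
    · intro t ht h0
      rw [hz t (Finset.mem_range.1 ht) h0, zero_mul]
    · intro h
      exact absurd (Finset.mem_range.2 hl.pos) h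
  refine h1.symm.trans ?_
  simp only [ff_mul hα hβ (pow_ne_zero _ hη0), Finset.sum_add_distrib, ← Finset.mul_sum,
    sum_zpow hl hodd hη]

lemma ind_zero (l : ℕ) : ind l 0 = 1 := by simp [ind]

lemma ind_small (h13 : 13 < l) (m : ℤ) (h0 : m ≠ 0) (h1 : -13 ≤ m) (h2 : m ≤ 13) :
    ind l m = 0 := by
  unfold ind
  rw [if_neg]
  intro h
  apply h0
  apply Int.eq_zero_of_abs_lt_dvd h
  rw [abs_lt]
  constructor <;> omega

lemma ind_not {m : ℤ} (h : ¬ (l : ℤ) ∣ m) : ind l m = 0 := if_neg h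

lemma sq_eq_sq_char {x y : KK} (h : x ^ 2 = y ^ 2) : x = y := by
  have h2 : (2 : KK) = 0 := two_zero'
  have h1 : (x + y) ^ 2 = 0 := by linear_combination h + (y ^ 2 + x * y) * h2
  rw [← add_eq_zero_iff_eq']
  exact pow_eq_zero_iff (two_ne_zero) |>.1 h1

/-- some difference is missing, hence the sum of the coefficients vanishes -/
lemma D_eq_zero (hl : l.Prime) (hodd : Odd l) (h13 : 13 < l) (hη : orderOf η = l) (hα : α ≠ 0)
    (hβ : β ≠ 0)
    (hz : ∀ t : ℕ, t < l → t ≠ 0 → ff α β c (η ^ t) * ff α β c (η ^ t)⁻¹ = 0) :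
    (α + α⁻¹ + (β + β⁻¹) + 1) ^ 2 = 0 := by
  classical
  have : NeZero l := ⟨hl.ne_zero⟩
  let L : List (ZMod l) := [0, 2, -2, 2 * (c : ZMod l), -2 * (c : ZMod l), 1, -1, (c : ZMod l),
    -(c : ZMod l), 1 - (c : ZMod l), (c : ZMod l) - 1, 1 + (c : ZMod l), -1 - (c : ZMod l)]
  have hT : L.toFinset.card < Fintype.card (ZMod l) := by
    rw [ZMod.card]
    have : L.toFinset.card ≤ L.length := List.toFinset_card_le L
    have h2 : L.length = 13 := rfl
    omega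
  obtain ⟨k, hk⟩ : ∃ k, k ∉ L.toFinset := by
    by_contra hcon
    push Not at hcon
    have : L.toFinset = Finset.univ := Finset.eq_univ_iff_forall.2 hcon
    rw [this, Finset.card_univ] at hT
    exact lt_irrefl _ hT
  rw [List.mem_toFinset] at hk
  have hcast : ((k.val : ℤ) : ZMod l) = k := by simp
  have hnd : ∀ m : ℤ, (m : ZMod l) ∈ L → ind l (m - (k.val : ℤ)) = 0 := by
    intro m hm
    apply ind_not
    intro hd
    apply hk
    rw [← ZMod.intCast_zmod_eq_zero_iff_dvd, Int.cast_sub, hcast, sub_eq_zero] at hd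
    rw [← hd]; exact hm
  have hkey := key (c := c) hl hodd hη hα hβ hz (k.val : ℤ)
  have i0 : ind l (-(k.val : ℤ)) = 0 := by
    have := hnd 0 (by simp [L]); rwa [zero_sub] at this
  rw [i0, hnd 2 (by simp [L]), hnd (-2) (by simp [L]), hnd (2 * c) (by simp [L]),
    hnd (-2 * c) (by simp [L]), hnd 1 (by simp [L]), hnd (-1) (by simp [L]), hnd c (by simp [L]),
    hnd (-c) (by simp [L]), hnd (1 - c) (by simp [L]), hnd (c - 1) (by simp [L]),
    hnd (1 + c) (by simp [L]), hnd (-1 - c) (by simp [L])] at hkey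
  rw [hkey]
  ring

lemma contra_general (hl : l.Prime) (hodd : Odd l) (h13 : 13 < l) (hη : orderOf η = l)
    (hα : α ≠ 0) (hβ : β ≠ 0)
    (hz : ∀ t : ℕ, t < l → t ≠ 0 → ff α β c (η ^ t) * ff α β c (η ^ t)⁻¹ = 0)
    (n1 : ¬ (l : ℤ) ∣ c - 1) (m1 : ¬ (l : ℤ) ∣ c + 1) (n2 : ¬ (l : ℤ) ∣ c - 2)
    (m2 : ¬ (l : ℤ) ∣ c + 2) (n3 : ¬ (l : ℤ) ∣ c - 3) (m3 : ¬ (l : ℤ) ∣ c + 3) : False := by
  have hD := D_eq_zero hl hodd h13 hη hα hβ hz
  have hkey := key (c := c) hl hodd hη hα hβ hz 2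
  have hl2 : IsCoprime (l : ℤ) 2 := by
    rw [Int.isCoprime_iff_gcd_eq_one]
    have : Nat.Coprime l 2 := Nat.coprime_two_right.2 hodd
    simpa [Int.gcd] using this
  have a1 : ind l (2 * c - 2) = 0 := ind_not fun h => n1 (by
    rw [show 2 * c - 2 = 2 * (c - 1) by ring] at h; exact hl2.dvd_of_dvd_mul_left h)
  have a2 : ind l (-2 * c - 2) = 0 := ind_not fun h => m1 (by
    rw [show -2 * c - 2 = 2 * (-(c + 1)) by ring] at h
    exact (dvd_neg.1 (hl2.dvd_of_dvd_mul_left h)))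
  have a3 : ind l (c - 2) = 0 := ind_not n2
  have a4 : ind l (-c - 2) = 0 := ind_not fun h => m2 (by
    rw [show -c - 2 = -(c + 2) by ring] at h; exact dvd_neg.1 h)
  have a5 : ind l (1 - c - 2) = 0 := ind_not fun h => m1 (by
    rw [show 1 - c - 2 = -(c + 1) by ring] at h; exact dvd_neg.1 h)
  have a6 : ind l (c - 1 - 2) = 0 := ind_not fun h => n3 (by
    rw [show c - 1 - 2 = c - 3 by ring] at h; exact h)
  have a7 : ind l (1 + c - 2) = 0 := ind_not fun h => n1 (by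
    rw [show 1 + c - 2 = c - 1 by ring] at h; exact h)
  have a8 : ind l (-1 - c - 2) = 0 := ind_not fun h => m3 (by
    rw [show -1 - c - 2 = -(c + 3) by ring] at h; exact dvd_neg.1 h)
  rw [a1, a2, a3, a4, a5, a6, a7, a8, hD, sub_self, ind_zero,
    ind_small h13 (-2 - 2) (by norm_num) (by norm_num) (by norm_num),
    ind_small h13 (1 - 2) (by norm_num) (by norm_num) (by norm_num),
    ind_small h13 (-1 - 2) (by norm_num) (by norm_num) (by norm_num)] at hkey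
  apply zero_ne_one (α := KK)
  rw [hkey]; ring

lemma contra_special (hl : l.Prime) (hodd : Odd l) (h13 : 13 < l) (hη : orderOf η = l)
    (hα : α ≠ 0) (hβ : β ≠ 0)
    (hz : ∀ t : ℕ, t < l → t ≠ 0 → ff α β c (η ^ t) * ff α β c (η ^ t)⁻¹ = 0)
    (hc : c = 2 ∨ c = -2 ∨ c = 3 ∨ c = -3) : False := by
  have hD := D_eq_zero hl hodd h13 hη hα hβ hz
  apply zero_ne_one (α := KK)
  have e := @ind_small l h13
  rcases hc with rfl | rfl | rfl | rfl
  · have hkey := key hl hodd hη hα hβ hz 4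
    rw [hD] at hkey
    norm_num [ind_zero, e] at hkey
  · have hkey := key hl hodd hη hα hβ hz 4
    rw [hD] at hkey
    norm_num [ind_zero, e] at hkey
  · have hkey := key hl hodd hη hα hβ hz 6
    rw [hD] at hkey
    norm_num [ind_zero, e] at hkey
  · have hkey := key hl hodd hη hα hβ hz 6
    rw [hD] at hkey
    norm_num [ind_zero, e] at hkey

lemma contra_one (hl : l.Prime) (hodd : Odd l) (h13 : 13 < l) (hη : orderOf η = l)
    (hα : α ≠ 0) (hβ : β ≠ 0)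
    (hz : ∀ t : ℕ, t < l → t ≠ 0 → ff α β 1 (η ^ t) * ff α β 1 (η ^ t)⁻¹ = 0) : α = β := by
  have h2 : (2 : KK) = 0 := two_zero'
  have hD := D_eq_zero hl hodd h13 hη hα hβ hz
  have e := @ind_small l h13
  have hkey := key hl hodd hη hα hβ hz 2
  rw [hD] at hkey
  norm_num [ind_zero, e] at hkey
  apply sq_eq_sq_char
  have hA : α * α⁻¹ = 1 := mul_inv_cancel₀ hα
  have hB : β * β⁻¹ = 1 := mul_inv_cancel₀ hβ
  linear_combination (-(α * β)) * hkey - α ^ 2 * hB - β ^ 2 * hA - (α * β + β ^ 2) * h2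

lemma contra_neg_one (hl : l.Prime) (hodd : Odd l) (h13 : 13 < l) (hη : orderOf η = l)
    (hα : α ≠ 0) (hβ : β ≠ 0)
    (hz : ∀ t : ℕ, t < l → t ≠ 0 → ff α β (-1) (η ^ t) * ff α β (-1) (η ^ t)⁻¹ = 0) :
    α * β = 1 := by
  have h2 : (2 : KK) = 0 := two_zero'
  have hD := D_eq_zero hl hodd h13 hη hα hβ hz
  have e := @ind_small l h13
  have hkey := key hl hodd hη hα hβ hz 2
  rw [hD] at hkey
  norm_num [ind_zero, e] at hkey
  apply sq_eq_sq_char
  have hA : α * α⁻¹ = 1 := mul_inv_cancel₀ hα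
  have hB : β * β⁻¹ = 1 := mul_inv_cancel₀ hβ
  linear_combination (-(α * β)) * hkey - (α * α⁻¹) * hB - hA - (α * β + 1) * h2

/-- two functions with congruent exponents agree on the `l`-th roots of one -/
lemma ff_congr (hη : orderOf η = l) (hη0 : η ≠ 0) {c' : ℤ} (h : (l : ℤ) ∣ c - c') (t : ℕ) :
    ff α β c (η ^ t) = ff α β c' (η ^ t) ∧ ff α β c (η ^ t)⁻¹ = ff α β c' (η ^ t)⁻¹ := by
  have h1 : (η ^ t) ^ c = (η ^ t) ^ c' := by
    have h2 : (η ^ t) ^ (c - c') = 1 := by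
      rw [← zpow_natCast, ← zpow_mul, zpow_eq_one' hη hη0]
      exact h.mul_left _
    rw [show c = (c - c') + c' by ring, zpow_add₀ (pow_ne_zero _ hη0), h2, one_mul]
  unfold ff
  simp only [inv_zpow, zpow_neg, h1, inv_inv, and_self]

lemma contra (hl : l.Prime) (hodd : Odd l) (h13 : 13 < l) (hη : orderOf η = l)
    (hα : α ≠ 0) (hβ : β ≠ 0)
    (hz : ∀ t : ℕ, t < l → t ≠ 0 → ff α β c (η ^ t) * ff α β c (η ^ t)⁻¹ = 0)
    (hne : α * η ≠ β * η ^ c) (hne' : α * η * (β * η ^ c) ≠ 1) : False := by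
  have hη0 : η ≠ 0 := by
    rintro rfl
    have h := pow_orderOf_eq_one (0 : KK)
    rw [hη, zero_pow hl.ne_zero] at h
    exact zero_ne_one h
  have hz' : ∀ c' : ℤ, (l : ℤ) ∣ c - c' → ∀ t : ℕ, t < l → t ≠ 0 →
      ff α β c' (η ^ t) * ff α β c' (η ^ t)⁻¹ = 0 := by
    intro c' hc' t ht ht0
    obtain ⟨h1, h2⟩ := ff_congr (α := α) (β := β) hη hη0 hc' t
    rw [← h1, ← h2]
    exact hz t ht ht0
  have hpow : ∀ c' : ℤ, (l : ℤ) ∣ c - c' → η ^ c = η ^ c' := by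
    intro c' hc'
    have h2 : η ^ (c - c') = 1 := (zpow_eq_one' hη hη0 _).2 hc'
    rw [show c = (c - c') + c' by ring, zpow_add₀ hη0, h2, one_mul]
  by_cases n1 : (l : ℤ) ∣ c - 1
  · apply hne
    rw [hpow 1 n1, contra_one hl hodd h13 hη hα hβ (hz' 1 n1), zpow_one]
  by_cases m1 : (l : ℤ) ∣ c + 1
  · apply hne'
    have m1' : (l : ℤ) ∣ c - (-1) := by rwa [sub_neg_eq_add]
    have h := contra_neg_one hl hodd h13 hη hα hβ (hz' (-1) m1')
    rw [hpow (-1) m1', zpow_neg_one]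
    calc α * η * (β * η⁻¹) = (α * β) * (η * η⁻¹) := by ring
      _ = 1 := by rw [h, mul_inv_cancel₀ hη0, one_mul]
  by_cases n2 : (l : ℤ) ∣ c - 2
  · exact contra_special hl hodd h13 hη hα hβ (hz' 2 n2) (by simp)
  by_cases m2 : (l : ℤ) ∣ c + 2
  · exact contra_special hl hodd h13 hη hα hβ (hz' (-2) (by rwa [sub_neg_eq_add])) (by simp)
  by_cases n3 : (l : ℤ) ∣ c - 3
  · exact contra_special hl hodd h13 hη hα hβ (hz' 3 n3) (by simp)
  by_cases m3 : (l : ℤ) ∣ c + 3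
  · exact contra_special hl hodd h13 hη hα hβ (hz' (-3) (by rwa [sub_neg_eq_add])) (by simp)
  exact contra_general hl hodd h13 hη hα hβ hz n1 m1 n2 m2 n3 m3

end

/-- There are no new pairs of roots when a prime `l` is added. -/
lemma no_new_prime (b l e : ℕ) (hl : l.Prime) (h13 : 13 < l) (hcop : Nat.Coprime b l)
    (hb : b ≠ 0) (hbe : b ∣ 2 ^ e - 1)
    (hH : ∀ t : ℕ, t < l → t ≠ 0 → ∃ i : ℕ, (l : ℤ) ∣ ((2 ^ e) ^ i : ℕ) - (t : ℤ) ∨
      (l : ℤ) ∣ ((2 ^ e) ^ i : ℕ) + (t : ℤ))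
    {z w : KK} (hz : z ^ (b * l) = 1) (hw : w ^ (b * l) = 1)
    (hzb : z ^ b ≠ 1) (hzw : z + z⁻¹ + (w + w⁻¹) = 1) : False := by
  have h2 : (2 : KK) = 0 := two_zero'
  have hodd : Odd l := hl.odd_of_ne_two (by omega)
  have hbl : b * l ≠ 0 := mul_ne_zero hb hl.ne_zero
  have hz0 : z ≠ 0 := by rintro rfl; rw [zero_pow hbl] at hz; exact zero_ne_one hz
  have hw0 : w ≠ 0 := by rintro rfl; rw [zero_pow hbl] at hw; exact zero_ne_one hw
  -- `b r = 1 + l m`
  obtain ⟨r, m, hrm⟩ : ∃ r m : ℕ, b * r = 1 + l * m := by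
    obtain ⟨r, hr⟩ := Nat.exists_mul_mod_eq_one_of_coprime hcop hl.one_lt
    refine ⟨r, (b * r) / l, ?_⟩
    have := Nat.div_add_mod (b * r) l
    omega
  set η := z ^ (b * r) with hηdef
  set θ := w ^ (b * r) with hθdef
  have hη0 : η ≠ 0 := pow_ne_zero _ hz0
  have hθ0 : θ ≠ 0 := pow_ne_zero _ hw0
  have hηl : η ^ l = 1 := by
    rw [hηdef, ← pow_mul, show b * r * l = b * l * r by ring, pow_mul, hz, one_pow]
  have hθl : θ ^ l = 1 := by
    rw [hθdef, ← pow_mul, show b * r * l = b * l * r by ring, pow_mul, hw, one_pow]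
  have hη1 : η ≠ 1 := by
    intro h
    apply hzb
    have h3 : (z ^ b) ^ l = 1 := by rw [← pow_mul, hz]
    have h4 : (z ^ b) ^ (b * r) = 1 := by
      rw [← pow_mul, mul_comm b (b * r), pow_mul, ← hηdef, h, one_pow]
    rw [hrm, pow_add, pow_one, pow_mul, h3, one_pow, mul_one] at h4
    exact h4
  have hord : orderOf η = l := by
    have : Fact l.Prime := ⟨hl⟩
    exact orderOf_eq_prime hηl hη1
  set α := z * η⁻¹ with hα
  set β := w * θ⁻¹ with hβ
  have hα0 : α ≠ 0 := mul_ne_zero hz0 (inv_ne_zero hη0)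
  have hβ0 : β ≠ 0 := mul_ne_zero hw0 (inv_ne_zero hθ0)
  have hpowb : ∀ x : KK, x ≠ 0 → x ^ (b * l) = 1 → (x * (x ^ (b * r))⁻¹) ^ b = 1 := by
    intro x hx h
    have e1 : (x ^ (b * r)) ^ b = x ^ b := by
      rw [← pow_mul, hrm, show (1 + l * m) * b = b + (b * l) * m by ring, pow_add, pow_mul, h,
        one_pow, mul_one]
    rw [mul_pow, inv_pow, e1, mul_inv_cancel₀ (pow_ne_zero _ hx)]
  have hαb : α ^ b = 1 := hpowb z hz0 hz
  have hβb : β ^ b = 1 := hpowb w hw0 hw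
  have hfix : ∀ x : KK, x ^ b = 1 → x ^ (2 ^ e) = x := by
    intro x hx
    obtain ⟨u, hu⟩ := hbe
    have h1 : 2 ^ e = 1 + b * u := by
      have : 0 < 2 ^ e := by positivity
      omega
    rw [h1, pow_add, pow_one, pow_mul, hx, one_pow, mul_one]
  -- the exponent
  have hprim : IsPrimitiveRoot η l := by
    rw [← hord]; exact IsPrimitiveRoot.orderOf η
  have : NeZero l := ⟨hl.ne_zero⟩
  obtain ⟨c, _, hc⟩ := hprim.eq_pow_of_pow_eq_one hθl
  have hθc : θ = η ^ (c : ℤ) := by rw [zpow_natCast, hc]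
  have hzα : z = α * η := by rw [hα, mul_assoc, inv_mul_cancel₀ hη0, mul_one]
  have hwβ : w = β * θ := by rw [hβ, mul_assoc, inv_mul_cancel₀ hθ0, mul_one]
  have hf1 : ff α β (c : ℤ) η = 0 := by
    unfold ff
    rw [zpow_neg, ← hθc, ← mul_inv, ← mul_inv, ← hzα, ← hwβ, hzw]
    linear_combination h2
  have hfrob : ∀ x : KK, ff α β (c : ℤ) (x ^ (2 ^ e)) = (ff α β (c : ℤ) x) ^ (2 ^ e) := by
    intro x
    unfold ff
    have hαq := hfix α hαb
    have hβq := hfix β hβb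
    simp only [frob2_add, mul_pow, inv_pow, one_pow, hαq, hβq]
    congr 4
    · rw [zpow_natCast, zpow_natCast, ← pow_mul, ← pow_mul, mul_comm]
    · rw [zpow_neg, zpow_neg, zpow_natCast, zpow_natCast, inv_pow, ← pow_mul, ← pow_mul, mul_comm]
  have hfi : ∀ i : ℕ, ff α β (c : ℤ) (η ^ ((2 ^ e) ^ i)) = 0 := by
    intro i
    induction i with
    | zero => simpa using hf1
    | succ i ih =>
      rw [pow_succ (2 ^ e) i, pow_mul, hfrob, ih, zero_pow (by positivity)]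
  have hzz : ∀ t : ℕ, t < l → t ≠ 0 →
      ff α β (c : ℤ) (η ^ t) * ff α β (c : ℤ) (η ^ t)⁻¹ = 0 := by
    intro t ht ht0
    obtain ⟨i, hi | hi⟩ := hH t ht ht0
    · have h3 : η ^ t = η ^ ((2 ^ e) ^ i) := by
        have h4 := (zpow_eq_one' hord hη0 _).2 hi
        rw [zpow_sub₀ hη0, zpow_natCast, zpow_natCast,
          div_eq_one_iff_eq (pow_ne_zero _ hη0)] at h4
        exact h4.symm
      rw [h3, hfi i, zero_mul]
    · have h3 : (η ^ t)⁻¹ = η ^ ((2 ^ e) ^ i) := by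
        have h4 := (zpow_eq_one' hord hη0 _).2 hi
        rw [zpow_add₀ hη0, zpow_natCast, zpow_natCast] at h4
        exact (eq_inv_of_mul_eq_one_left h4).symm
      rw [h3, hfi i, mul_zero]
  apply contra (c := (c : ℤ)) hl hodd h13 hord hα0 hβ0 hzz
  · rw [← hθc, ← hzα, ← hwβ]
    intro h
    rw [h] at hzw
    have : (1 : KK) = 0 := by linear_combination (w + w⁻¹) * h2 - hzw
    exact one_ne_zero this
  · rw [← hθc, ← hzα, ← hwβ]
    intro h
    have h5 : z = w⁻¹ := eq_inv_of_mul_eq_one_left h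
    rw [h5, inv_inv] at hzw
    have : (1 : KK) = 0 := by linear_combination (w + w⁻¹) * h2 - hzw
    exact one_ne_zero this

end KS6_73.LO
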