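import Pool.Graph.R_pool_sql_team_seeded_3997aac3.Q167.LightsOut.Kernel

/-!
# The nullity of the Lights Out grid as the degree of a greatest common divisor
-/

set_option autoImplicit false

namespace KS6_73.LO

open Polynomial Q167.LightsOut

/-- The polynomial `F (n + 1)` translated by one. -/
noncomputable abbrev G (n : ℕ) : (ZMod 2)[X] := (F n).comp (X + 1)

lemma deg_F (n : ℕ) : (F (n + 1)).Monic ∧ (F (n + 1)).natDegree = n := by
  induction n using Nat.strong_induction_on with
  | _ n ih =>
    match n with
    | 0 => simp [F_one]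
    | 1 =>
      have : F 2 = X := by rw [F_add_two, F_one, F_zero]; simp
      rw [this]; exact ⟨monic_X, natDegree_X⟩
    | n + 2 =>
      obtain ⟨h1, h2⟩ := ih (n + 1) (by omega)
      obtain ⟨h3, h4⟩ := ih n (by omega)
      have h5 : F (n + 2 + 1) = X * F (n + 1 + 1) + F (n + 1) := F_add_two (n + 1)
      have h6 : (X * F (n + 1 + 1)).natDegree = n + 2 := by
        rw [natDegree_X_mul h1.ne_zero, h2]
      have h7 : (X * F (n + 1 + 1)).Monic := monic_X.mul h1
      have h8 : (F (n + 1)).degree < (X * F (n + 1 + 1)).degree := by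
        apply degree_lt_degree
        omega
      rw [h5]
      exact ⟨h7.add_of_left h8, by rw [natDegree_add_eq_left_of_degree_lt h8, h6]⟩

/-- A vector is zero as soon as its first entry and those of its images vanish. -/
lemma eq_zero_of_functional {n : ℕ} {v : Fin n → ZMod 2}
    (h : ∀ f : (ZMod 2)[X], ext (aeval (P n) f v) 1 = 0) : v = 0 := by
  apply eq_zero_of_ext
  intro j _ hj
  rw [← ext_aeval_F j (by omega)]
  exact h _

/-- First entry as a linear functional. -/
def firstEntry (n : ℕ) : (Fin n → ZMod 2) →ₗ[ZMod 2] ZMod 2 where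
  toFun v := ext v 1
  map_add' v w := ext_add v w 1
  map_smul' a v := by rw [ext_smul]; rfl

lemma ker_le (n : ℕ) (m : (ZMod 2)[X]) (hm : m ≠ 0) :
    Module.finrank (ZMod 2) (LinearMap.ker (aeval (P n) m)) ≤ m.natDegree := by
  set d := m.natDegree with hd
  let φ : LinearMap.ker (aeval (P n) m) →ₗ[ZMod 2] (Fin d → ZMod 2) :=
    LinearMap.pi fun i : Fin d =>
      (firstEntry n).comp ((aeval (P n) (X ^ (i : ℕ) : (ZMod 2)[X])).comp (Submodule.subtype _))
  have hinj : Function.Injective φ := by
    rw [← LinearMap.ker_eq_bot, LinearMap.ker_eq_bot']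
    rintro ⟨v, hv⟩ h0
    apply Subtype.ext
    apply eq_zero_of_functional
    rw [LinearMap.mem_ker] at hv
    have h1 : ∀ i : ℕ, i < d → firstEntry n (aeval (P n) (X ^ i : (ZMod 2)[X]) v) = 0 := by
      intro i hi
      exact congrFun h0 ⟨i, hi⟩
    have h2 : ∀ r : (ZMod 2)[X], r.degree < m.degree →
        firstEntry n (aeval (P n) r v) = 0 := by
      intro r hr
      have hr' : ∀ i ∈ r.support, i < d := by
        intro i hi
        have h3 := le_degree_of_mem_supp i hi
        have h4 := h3.trans_lt hr
        rw [degree_eq_natDegree hm] at h4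
        exact_mod_cast h4
      have h5 : aeval (P n) r v =
          ∑ i ∈ r.support, r.coeff i • (aeval (P n) (X ^ i : (ZMod 2)[X]) v) := by
        conv_lhs => rw [r.as_sum_support_C_mul_X_pow]
        rw [map_sum, LinearMap.sum_apply]
        apply Finset.sum_congr rfl
        intro i _
        rw [map_mul, aeval_C, Module.End.mul_apply]
        rfl
      rw [h5, map_sum]
      apply Finset.sum_eq_zero
      intro i hi
      rw [map_smul, h1 i (hr' i hi), smul_zero]
    intro f
    have h6 : f = f % m + m * (f / m) := (EuclideanDomain.mod_add_div f m).symm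
    change firstEntry n (aeval (P n) f v) = 0
    rw [h6, map_add, LinearMap.add_apply, map_add, mul_comm, map_mul, Module.End.mul_apply, hv,
      map_zero, map_zero, add_zero]
    exact h2 _ (EuclideanDomain.mod_lt f hm)
  have := LinearMap.finrank_le_finrank_of_injective hinj
  simpa using this

lemma ker_eq (n : ℕ) (h : (ZMod 2)[X]) (hh : h ∣ F (n + 1)) :
    Module.finrank (ZMod 2) (LinearMap.ker (aeval (P n) h)) = h.natDegree := by
  obtain ⟨m, hm⟩ := hh
  obtain ⟨hF1, hF2⟩ := deg_F n
  have hF0 := hF1.ne_zero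
  have hh0 : h ≠ 0 := by rintro rfl; rw [zero_mul] at hm; exact hF0 hm
  have hm0 : m ≠ 0 := by rintro rfl; rw [mul_zero] at hm; exact hF0 hm
  apply le_antisymm (ker_le n h hh0)
  have h1 := ker_le n m hm0
  have h2 := LinearMap.finrank_range_add_finrank_ker (aeval (P n) m)
  have h3 : LinearMap.range (aeval (P n) m) ≤ LinearMap.ker (aeval (P n) h) := by
    rintro _ ⟨v, rfl⟩
    rw [LinearMap.mem_ker, ← Module.End.mul_apply, ← map_mul, ← hm, aeval_F_top]
    rfl
  have h4 := Submodule.finrank_mono h3
  have h5 : h.natDegree + m.natDegree = n := by rw [← natDegree_mul hh0 hm0, ← hm, hF2]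
  have h6 : Module.finrank (ZMod 2) (Fin n → ZMod 2) = n := by simp
  omega

/-- The kernel of the grid matrix is the kernel of `F (n + 1) (P + 1)` on the first row. -/
lemma finrank_kernel (n : ℕ) :
    nullity n = Module.finrank (ZMod 2) (LinearMap.ker (aeval (P n) (G (n + 1)))) := by
  -- the solution with a given first row
  let sol : (Fin n → ZMod 2) → (Fin n × Fin n → ZMod 2) := fun r c =>
    aeval (P n) (G (c.1 + 1)) r c.2
  have hrow : ∀ r : Fin n → ZMod 2, aeval (P n) (G (n + 1)) r = 0 → ∀ i j : ℕ, i ≤ n + 1 →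
      ext2 (sol r) i j = ext (aeval (P n) (G i) r) j := by
    intro r hr i j hi
    rcases Nat.eq_zero_or_pos i with rfl | hi0
    · have : G 0 = 0 := by simp [G, F_zero]
      rw [this, map_zero]
      simp [ext2, Q167.LightsOut.ext]
    rcases Nat.lt_or_ge n i with h | h
    · have : i = n + 1 := by omega
      subst this
      rw [hr]
      simp [ext2, Q167.LightsOut.ext]
    · unfold ext2 Q167.LightsOut.ext
      by_cases hj : 1 ≤ j ∧ j ≤ n
      · rw [dif_pos ⟨⟨hi0, h⟩, hj⟩, dif_pos hj]
        change aeval (P n) (G (i - 1 + 1)) r _ = _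
        rw [Nat.sub_add_cancel hi0]
      · rw [dif_neg (fun h' => hj h'.2), dif_neg hj]
  have hsol : ∀ r : Fin n → ZMod 2, aeval (P n) (G (n + 1)) r = 0 →
      sol r ∈ LinearMap.ker (gridMatrix n).mulVecLin := by
    intro r hr
    rw [mem_ker_iff]
    intro i j hi hj
    rw [hrow r hr _ _ (by omega), hrow r hr _ _ (by omega), hrow r hr _ _ (by omega),
      hrow r hr _ _ (by omega), hrow r hr _ _ (by omega)]
    have h1 : G (i + 2) = (X + 1) * G (i + 1) + G i := by
      simp [G, F_add_two, add_comp, mul_comp]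
    rw [h1, map_add, map_mul, LinearMap.add_apply, ext_add, Module.End.mul_apply, map_add,
      map_one, aeval_X, LinearMap.add_apply, ext_add, Module.End.one_apply,
      ext_P _ (by omega) (by omega), Nat.add_sub_cancel]
    linear_combination (ext (aeval (P n) (G (i + 1)) r) (j + 1) + ext (aeval (P n) (G i) r) (j + 1)
      + ext (aeval (P n) (G (i + 1)) r) j + ext (aeval (P n) (G (i + 1)) r) (j + 2)) * two_zero2
  let φ : LinearMap.ker (gridMatrix n).mulVecLin →ₗ[ZMod 2]
      LinearMap.ker (aeval (P n) (G (n + 1))) :=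
    { toFun := fun x => ⟨row x.1 1, by
        rw [LinearMap.mem_ker, ← row_eq x.2 (n + 1) le_rfl, row_top]⟩
      map_add' := by
        rintro ⟨x, hx⟩ ⟨y, hy⟩
        apply Subtype.ext
        funext j
        simp only [row, Pi.add_apply, AddMemClass.mk_add_mk]
        unfold ext2; split_ifs <;> simp
      map_smul' := by
        rintro a ⟨x, hx⟩
        apply Subtype.ext
        funext j
        simp only [row, SetLike.mk_smul_mk, Pi.smul_apply, RingHom.id_apply]
        unfold ext2; split_ifs <;> simp }
  have hinj : Function.Injective φ := by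
    rw [← LinearMap.ker_eq_bot, LinearMap.ker_eq_bot']
    rintro ⟨x, hx⟩ h0
    have h1 : row x 1 = 0 := congrArg Subtype.val h0
    apply Subtype.ext
    funext c
    have h5 := row_eq hx (c.1 + 1) (by omega)
    rw [h1, map_zero] at h5
    have h6 := congrFun h5 c.2
    simpa [row, ext2, Nat.succ_le_iff] using h6
  have hsurj : Function.Surjective φ := by
    rintro ⟨r, hr⟩
    rw [LinearMap.mem_ker] at hr
    refine ⟨⟨sol r, hsol r hr⟩, ?_⟩
    apply Subtype.ext
    change row (sol r) 1 = r
    funext j
    have h1 : row (sol r) 1 j = ext2 (sol r) 1 (j + 1) := rfl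
    rw [h1, hrow r hr 1 _ (by omega)]
    have h2 : G 1 = 1 := by simp [G, F_one]
    rw [h2, map_one, Module.End.one_apply, ext_fin]
  exact LinearEquiv.finrank_eq (LinearEquiv.ofBijective φ ⟨hinj, hsurj⟩)

/-- **The nullity is the degree of a greatest common divisor.** -/
theorem nullity_eq (n : ℕ) (h : (ZMod 2)[X]) (h1 : h ∣ F (n + 1)) (h2 : h ∣ G (n + 1))
    (h3 : ∃ a b, a * F (n + 1) + b * G (n + 1) = h) : nullity n = h.natDegree := by
  have : LinearMap.ker (aeval (P n) (G (n + 1))) = LinearMap.ker (aeval (P n) h) := by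
    apply le_antisymm
    · intro v hv
      obtain ⟨a, b, hab⟩ := h3
      rw [LinearMap.mem_ker] at hv ⊢
      rw [← hab, map_add, map_mul, map_mul, aeval_F_top, mul_zero, zero_add,
        Module.End.mul_apply, hv, map_zero]
    · intro v hv
      obtain ⟨c, hc⟩ := h2
      rw [LinearMap.mem_ker] at hv ⊢
      rw [hc, mul_comm, map_mul, Module.End.mul_apply, hv, map_zero]
  rw [finrank_kernel, ← ker_eq n h h1, this]

end KS6_73.LO
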