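import Pool.Agent.KS6_73.LO.Nullity

/-!
# Stability of the nullity under multiplication by a prime divisor
-/

set_option autoImplicit false

namespace KS6_73.LO

open Polynomial Q167.LightsOut

/-! ## The composition formula -/

lemma F_shift (N a : ℕ) : F (a + 2 * N) = X * F N * F (a + N) + F a := by
  rcases Nat.eq_zero_or_pos N with rfl | hN
  · simp [F_zero]
  obtain ⟨m, rfl⟩ : ∃ m, N = m + 1 := ⟨N - 1, by omega⟩
  have hc := F_cassini m
  have h2 := F_add_two m
  have hd := F_double m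
  have hs := F_double_succ (m + 1)
  rcases Nat.eq_zero_or_pos a with rfl | ha
  · rw [zero_add, zero_add, hd, F_zero]; ring
  obtain ⟨b, rfl⟩ : ∃ b, a = b + 1 := ⟨a - 1, by omega⟩
  have e1 : F (b + 1 + 2 * (m + 1)) = F (b + 1) * F (2 * (m + 1) + 1) + F b * F (2 * (m + 1)) := by
    rw [show b + 1 + 2 * (m + 1) = b + (2 * (m + 1)) + 1 by ring, F_add]
  have e2 : F (b + 1 + (m + 1)) = F (b + 1) * F (m + 1 + 1) + F b * F (m + 1) := by
    rw [show b + 1 + (m + 1) = b + (m + 1) + 1 by ring, F_add]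
  rw [e1, e2, hd, hs, show m + 1 + 1 = m + 2 from rfl]
  linear_combination (F (b + 1)) * hc + (F (b + 1) * F (m + 2)) * h2

/-- `F (m N) = F N * F m (X F N)`. -/
lemma F_mul (N m : ℕ) : F (m * N) = F N * (F m).comp (X * F N) := by
  induction m using Nat.strong_induction_on with
  | _ m ih =>
    match m with
    | 0 => simp [F_zero]
    | 1 => simp [F_one]
    | m + 2 =>
      rw [show (m + 2) * N = m * N + 2 * N by ring, F_shift, show m * N + N = (m + 1) * N by ring,
        ih (m + 1) (by omega), ih m (by omega), F_add_two, add_comp, mul_comp, X_comp]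
      ring

lemma F_odd_zero {K : Type} [CommRing K] [Algebra (ZMod 2) K] {m : ℕ} (hm : Odd m) :
    aeval (0 : K) (F m) = 1 := by
  obtain ⟨k, rfl⟩ := hm
  induction k with
  | zero => simp [F_one]
  | succ k ih =>
    rw [show 2 * (k + 1) + 1 = 2 * k + 1 + 2 by ring, F_add_two, map_add, map_mul, aeval_X,
      zero_mul, zero_add, ih]

lemma aeval_F {K : Type} [Field K] [CharP K 2] [Algebra (ZMod 2) K] {z : K} (hz : z ≠ 0) (n : ℕ) :
    (z + z⁻¹) * aeval (z + z⁻¹) (F n) = z ^ n + z⁻¹ ^ n := by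
  have h2 : (2 : K) = 0 := two_zero'
  have hab : z * z⁻¹ = 1 := mul_inv_cancel₀ hz
  induction n using Nat.strong_induction_on with
  | _ n ih =>
    match n with
    | 0 => simp only [F_zero, map_zero, mul_zero, pow_zero]; linear_combination -h2
    | 1 => simp [F_one]
    | n + 2 =>
      rw [F_add_two, map_add, map_mul, aeval_X]
      have h1 := ih (n + 1) (by omega)
      have h0 := ih n (by omega)
      rw [pow_succ, pow_succ z⁻¹] at h1
      rw [pow_add, pow_add z⁻¹]
      generalize z⁻¹ = w at *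
      generalize z ^ n = A at *
      generalize w ^ n = B at *
      linear_combination (z + w) * h1 + h0 + (A + B) * hab + (A + B) * h2

/-- `x ↦ x ^ (2 ^ e)` is additive. -/
lemma frob2_add (e : ℕ) (x y : KK) : (x + y) ^ (2 ^ e) = x ^ (2 ^ e) + y ^ (2 ^ e) :=
  add_pow_char_pow (p := 2) (n := e) x y

lemma eq_one_of_pow_two_pow {x : KK} {a : ℕ} (h : x ^ (2 ^ a) = 1) : x = 1 := by
  have h2 : (2 : KK) = 0 := two_zero'
  have h1 : (x + 1) ^ (2 ^ a) = 0 := by
    rw [frob2_add, h, one_pow]; linear_combination h2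
  have h3 := pow_eq_zero_iff (pow_ne_zero a two_ne_zero) |>.1 h1
  linear_combination h3 - h2

lemma sum_pow_eq_zero {x : KK} {p : ℕ} (h : x ^ p = 1) (hx : x ≠ 1) :
    ∑ i ∈ Finset.range p, x ^ i = 0 := by
  have h1 := geom_sum_mul x p
  rw [h, sub_self, mul_eq_zero] at h1
  rcases h1 with h1 | h1
  · exact h1
  · exact absurd (sub_eq_zero.1 h1) hx

lemma sq_ne_one {x : KK} {p : ℕ} (hp : Odd p) (h : x ^ p = 1) (hx : x ≠ 1) : x ^ 2 ≠ 1 := by
  intro h2
  obtain ⟨k, rfl⟩ := hp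
  rw [pow_add, pow_mul, h2, one_pow, one_mul, pow_one] at h
  exact hx h

lemma add_eq_zero_iff_eq' (x y : KK) : x + y = 0 ↔ x = y := by
  have h2 : (2 : KK) = 0 := two_zero'
  constructor
  · intro h; linear_combination h - y * h2
  · rintro rfl; linear_combination x * h2

/-- The main computation: there are no new pairs of roots. -/
lemma no_new (b u p e : ℕ) (hp : Odd p) (hpb : p ∣ b) (hb : b ≠ 0)
    (he : 2 ^ e = 1 + b * u) {z w : KK} (hz : z ^ (b * p) = 1) (hw : w ^ (b * p) = 1)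
    (hzu : z ^ (b * u) ≠ 1) (hzw : z + z⁻¹ + (w + w⁻¹) = 1) : False := by
  have h2 : (2 : KK) = 0 := two_zero'
  have hp0 : p ≠ 0 := by rintro rfl; simp at hp
  have hbp : b * p ≠ 0 := mul_ne_zero hb hp0
  have hz0 : z ≠ 0 := by rintro rfl; rw [zero_pow hbp] at hz; exact zero_ne_one hz
  have hw0 : w ≠ 0 := by rintro rfl; rw [zero_pow hbp] at hw; exact zero_ne_one hw
  set η := z ^ (b * u) with hη
  set θ := w ^ (b * u) with hθ
  have hηp : η ^ p = 1 := by
    rw [hη, ← pow_mul, show b * u * p = b * p * u by ring, pow_mul, hz, one_pow]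
  have hθp : θ ^ p = 1 := by
    rw [hθ, ← pow_mul, show b * u * p = b * p * u by ring, pow_mul, hw, one_pow]
  have hη0 : η ≠ 0 := pow_ne_zero _ hz0
  have hθ0 : θ ≠ 0 := pow_ne_zero _ hw0
  obtain ⟨c, hc⟩ := hpb
  have hηq : η ^ (2 ^ e) = η := by
    rw [he, pow_add, pow_one, hc, mul_assoc, pow_mul, hηp, one_pow, mul_one]
  have hθq : θ ^ (2 ^ e) = θ := by
    rw [he, pow_add, pow_one, hc, mul_assoc, pow_mul, hθp, one_pow, mul_one]
  have hzq : z ^ (2 ^ e) = z * η := by rw [he, pow_add, pow_one]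
  have hwq : w ^ (2 ^ e) = w * θ := by rw [he, pow_add, pow_one]
  -- the conjugates
  have hconj : ∀ i : ℕ, z * η ^ i + (z * η ^ i)⁻¹ + (w * θ ^ i + (w * θ ^ i)⁻¹) = 1 := by
    intro i
    induction i with
    | zero => simpa using hzw
    | succ i ih =>
      have h := congrArg (fun x => x ^ (2 ^ e)) ih
      simp only [frob2_add, one_pow, inv_pow, mul_pow, ← pow_mul] at h
      have e1 : η ^ (i * 2 ^ e) = η ^ i := by rw [mul_comm, pow_mul, hηq]
      have e2 : θ ^ (i * 2 ^ e) = θ ^ i := by rw [mul_comm, pow_mul, hθq]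
      rw [e1, e2, hzq, hwq] at h
      rw [← h]
      congr 1 <;> rw [pow_succ] <;> congr 1 <;> ring
  have hηi : (η⁻¹) ^ p = 1 := by rw [inv_pow, hηp, inv_one]
  have hθi : (θ⁻¹) ^ p = 1 := by rw [inv_pow, hθp, inv_one]
  have hηi1 : η⁻¹ ≠ 1 := by
    intro h; apply hzu; rw [← inv_inv η, h, inv_one]
  have hsum : z * (p : KK) + z⁻¹ * ∑ i ∈ Finset.range p, (η⁻¹ ^ 2) ^ i
      + (w * ∑ i ∈ Finset.range p, (θ * η⁻¹) ^ i
        + w⁻¹ * ∑ i ∈ Finset.range p, (θ⁻¹ * η⁻¹) ^ i) = ∑ i ∈ Finset.range p, (η⁻¹) ^ i := by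
    have hone : (p : KK) = ∑ i ∈ Finset.range p, (1 : KK) := by simp
    rw [hone, Finset.mul_sum, Finset.mul_sum, Finset.mul_sum, Finset.mul_sum,
      ← Finset.sum_add_distrib, ← Finset.sum_add_distrib, ← Finset.sum_add_distrib]
    apply Finset.sum_congr rfl
    intro i _
    have h := hconj i
    have h3 : η ^ i * (η⁻¹) ^ i = 1 := by rw [← mul_pow, mul_inv_cancel₀ hη0, one_pow]
    have e1 : (z * η ^ i)⁻¹ = z⁻¹ * η⁻¹ ^ i := by rw [mul_inv, inv_pow]
    have e2 : (w * θ ^ i)⁻¹ = w⁻¹ * θ⁻¹ ^ i := by rw [mul_inv, inv_pow]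
    rw [e1, e2] at h
    rw [mul_pow, mul_pow, ← pow_mul, mul_comm 2 i, pow_mul]
    linear_combination (η⁻¹ ^ i) * h - z * h3
  rw [sum_pow_eq_zero hηi hηi1, sum_pow_eq_zero (by rw [← pow_mul, mul_comm, pow_mul, hηi, one_pow])
    (sq_ne_one hp hηi hηi1), mul_zero, add_zero] at hsum
  have hpc : (p : KK) = 1 := by
    obtain ⟨k, rfl⟩ := hp
    push_cast
    linear_combination (k : KK) * h2
  rw [hpc, mul_one] at hsum
  have hprod1 : (θ * η⁻¹) ^ p = 1 := by rw [mul_pow, hθp, hηi, one_mul]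
  have hprod2 : (θ⁻¹ * η⁻¹) ^ p = 1 := by rw [mul_pow, hθi, hηi, one_mul]
  have hone : ∑ i ∈ Finset.range p, (1 : KK) ^ i = 1 := by simp [hpc]
  by_cases h1 : θ * η⁻¹ = 1
  · have hθη : θ = η := by
      have := congrArg (· * η) h1
      simpa [mul_assoc, hη0] using this
    have h3 : θ⁻¹ * η⁻¹ ≠ 1 := by
      rw [hθη, ← sq]; exact sq_ne_one hp hηi hηi1
    rw [h1, hone, sum_pow_eq_zero hprod2 h3, mul_zero, add_zero, mul_one,
      add_eq_zero_iff_eq'] at hsum
    rw [hsum] at hzw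
    have : (1 : KK) = 0 := by linear_combination (w + w⁻¹) * h2 - hzw
    exact one_ne_zero this
  · rw [sum_pow_eq_zero hprod1 h1, mul_zero, zero_add] at hsum
    by_cases h3 : θ⁻¹ * η⁻¹ = 1
    · rw [h3, hone, mul_one, add_eq_zero_iff_eq'] at hsum
      rw [hsum, inv_inv] at hzw
      have : (1 : KK) = 0 := by linear_combination (w + w⁻¹) * h2 - hzw
      exact one_ne_zero this
    · rw [sum_pow_eq_zero hprod2 h3, mul_zero, add_zero] at hsum
      exact hz0 hsum

/-- If there are no new pairs of roots, then the quotient of `F (N p)` by `F N` is prime to the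
translate of `F (N p)`. -/
lemma coprime_quot (a b p : ℕ) (hp2 : Odd p)
    (hno : ∀ z w : KK, z ^ (b * p) = 1 → w ^ (b * p) = 1 → z ^ b ≠ 1 →
      z + z⁻¹ + (w + w⁻¹) = 1 → False) :
    IsCoprime ((F p).comp (X * F (2 ^ a * b))) (G (p * (2 ^ a * b))) := by
  rw [isCoprime_iff_aeval_ne_zero_of_isAlgClosed (ZMod 2) KK]
  intro α
  by_contra hcon
  push Not at hcon
  obtain ⟨h1, h2⟩ := hcon
  have htwo : (2 : KK) = 0 := two_zero'
  obtain ⟨z, hz, hzα⟩ := exists_z α
  obtain ⟨w, hw, hwα⟩ := exists_z (α + 1)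
  set N := 2 ^ a * b with hN
  rw [G, aeval_comp] at h2
  simp only [map_add, aeval_X, map_one] at h2
  -- `w ^ (b p) = 1`
  have hpow : ∀ x : KK, x ≠ 0 → x ^ (p * N) + x⁻¹ ^ (p * N) = 0 → x ^ (b * p) = 1 := by
    intro x hx h
    rw [add_eq_zero_iff_eq', inv_pow] at h
    have h3 : (x ^ (b * p)) ^ (2 ^ (a + 1)) = 1 := by
      rw [← pow_mul, show b * p * 2 ^ (a + 1) = p * N + p * N by rw [hN]; ring, pow_add]
      nth_rewrite 2 [h]
      exact mul_inv_cancel₀ (pow_ne_zero _ hx)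
    exact eq_one_of_pow_two_pow h3
  have hw1 : w ^ (b * p) = 1 := by
    apply hpow w hw
    rw [← aeval_F hw, hwα, h2, mul_zero]
  have h1' : aeval α (F (p * N)) = 0 := by
    rw [F_mul, map_mul, h1, mul_zero]
  have hz1 : z ^ (b * p) = 1 := by
    apply hpow z hz
    rw [← aeval_F hz, hzα, h1', mul_zero]
  have hzb : z ^ b ≠ 1 := by
    intro h
    have h3 : α * aeval α (F N) = 0 := by
      rw [← hzα, aeval_F hz, add_eq_zero_iff_eq', inv_pow, hN, mul_comm, pow_mul, h, one_pow,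
        inv_one]
    rw [aeval_comp, map_mul, aeval_X, h3, F_odd_zero hp2] at h1
    exact one_ne_zero h1
  apply hno z w hz1 hw1 hzb
  rw [hzα, hwα]
  linear_combination α * htwo

lemma comp_comp_self (f : (ZMod 2)[X]) : (f.comp (X + 1)).comp (X + 1) = f := by
  rw [comp_assoc]
  have h3 : (X + 1 : (ZMod 2)[X]).comp (X + 1) = X := by
    simp only [add_comp, X_comp, one_comp]
    linear_combination two_zero
  rw [h3, comp_X]

lemma IsCoprime.comp' {f g : (ZMod 2)[X]} (h : IsCoprime f g) (k : (ZMod 2)[X]) :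
    IsCoprime (f.comp k) (g.comp k) := by
  obtain ⟨a, b, hab⟩ := h
  refine ⟨a.comp k, b.comp k, ?_⟩
  rw [← mul_comp, ← mul_comp, ← add_comp, hab, one_comp]

/-- If there are no new pairs of roots, then the nullity does not change. -/
theorem nullity_of_no_new (a b p : ℕ) (hp2 : Odd p) (hb : b ≠ 0)
    (hno : ∀ z w : KK, z ^ (b * p) = 1 → w ^ (b * p) = 1 → z ^ b ≠ 1 →
      z + z⁻¹ + (w + w⁻¹) = 1 → False) :
    nullity (2 ^ a * b * p - 1) = nullity (2 ^ a * b - 1) := by
  have hcop := coprime_quot a b p hp2 hno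
  set N := 2 ^ a * b with hN
  have hN0 : 0 < N := by positivity
  have hp0 : 0 < p := hp2.pos
  set Q := (F p).comp (X * F N) with hQ
  have hFQ : F (p * N) = F N * Q := F_mul N p
  have hGQ : G (p * N) = G N * Q.comp (X + 1) := by rw [G, hFQ, mul_comp]
  have hcop2 : IsCoprime (Q.comp (X + 1)) (F (p * N)) := by
    have := IsCoprime.comp' hcop (X + 1)
    rwa [G, comp_comp_self] at this
  let h := EuclideanDomain.gcd (F N) (G N)
  have hd1 : h ∣ F N := EuclideanDomain.gcd_dvd_left _ _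
  have hd2 : h ∣ G N := EuclideanDomain.gcd_dvd_right _ _
  have hbz : h = F N * EuclideanDomain.gcdA (F N) (G N) + G N * EuclideanDomain.gcdB (F N) (G N) :=
    EuclideanDomain.gcd_eq_gcd_ab _ _
  have e1 : nullity (N - 1) = h.natDegree := by
    apply nullity_eq
    · rwa [Nat.sub_add_cancel hN0]
    · rwa [Nat.sub_add_cancel hN0]
    · rw [Nat.sub_add_cancel hN0]
      exact ⟨EuclideanDomain.gcdA (F N) (G N), EuclideanDomain.gcdB (F N) (G N), by
        rw [hbz]; ring⟩
  have hNp : 0 < N * p := Nat.mul_pos hN0 hp0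
  have e2 : nullity (N * p - 1) = h.natDegree := by
    apply nullity_eq
    · rw [Nat.sub_add_cancel hNp, mul_comm N p, hFQ]; exact hd1.mul_right _
    · rw [Nat.sub_add_cancel hNp, mul_comm N p, hGQ]; exact hd2.mul_right _
    · rw [Nat.sub_add_cancel hNp, mul_comm N p]
      obtain ⟨r, s, hrs⟩ := hcop
      obtain ⟨r', s', hrs'⟩ := hcop2
      set A := EuclideanDomain.gcdA (F N) (G N)
      set B := EuclideanDomain.gcdB (F N) (G N)
      -- `F N = r F N Q + s F N G (p N)`, `G N = r' G N Q' + s' G N F (p N)`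
      refine ⟨A * r + B * s' * G N, A * s * F N + B * r', ?_⟩
      rw [hbz]
      rw [hFQ, hGQ] at *
      linear_combination (A * F N) * hrs + (B * G N) * hrs'
  rw [e1, e2]

/-- **Stability, one step.** -/
theorem nullity_step (a b u p e : ℕ) (hp : p.Prime) (hp2 : Odd p) (hpb : p ∣ b) (hb : b ≠ 0)
    (he : 2 ^ e = 1 + b * u) (hu : ¬ p ∣ u) :
    nullity (2 ^ a * b * p - 1) = nullity (2 ^ a * b - 1) := by
  apply nullity_of_no_new a b p hp2 hb
  intro z w hz1 hw1 hzb hzw
  have hzu : z ^ (b * u) ≠ 1 := by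
    intro h
    apply hzb
    have hcop : Nat.Coprime u p := ((Nat.Prime.coprime_iff_not_dvd hp).2 hu).symm
    have h4 : (z ^ b) ^ p = 1 := by rw [← pow_mul]; exact hz1
    have h5 : (z ^ b) ^ u = 1 := by rw [← pow_mul]; exact h
    have h6 := pow_gcd_eq_one.2 ⟨h5, h4⟩
    rw [hcop.gcd_eq_one] at h6
    simpa using h6
  exact no_new b u p e hp2 hpb hb he hz1 hw1 hzu hzw

end KS6_73.LO
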